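import Pool.Agent.Helper17_Tukey.Main

/-!
# Tukey-top ultrafilters need not satisfy diamond-minus

The class of ultrafilters on `ℕ` satisfying diamond-minus is a proper subclass of the class of
Tukey-top ultrafilters, without any additional hypothesis.
-/

set_option autoImplicit false

open Pool.Agent.Helper17_Tukey

namespace Pool.Agent.Results.MP_a0a263_lc.TopWithoutDiamond

/-- Every ultrafilter with diamond-minus is Tukey-top, but there is a Tukey-top ultrafilter for
which diamond-minus fails. -/
theorem result : (∀ U : Ultrafilter ℕ, DiamondMinus U → TukeyTop U) ∧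
    ∃ U : Ultrafilter ℕ, TukeyTop U ∧ ¬ DiamondMinus U :=
  ⟨fun _ h => h.tukeyTop, exists_tukeyTop_not_diamondMinus⟩

end Pool.Agent.Results.MP_a0a263_lc.TopWithoutDiamond
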